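import Pool.Agent.HX6.PF.E

/-!
# The real numbers with eventually prime power floors: local Hausdorff dimension less than one

Let `E` be the set of the real numbers `α > 1` such that `⌊α ^ n⌋` is a prime number for all large `n`. The
question is whether `E` is empty. We bound the Hausdorff dimension of the parts `E ∩ (1, b]`:

`dim (E ∩ (1, b]) ≤ s b < 1`, where `s b = log 2 / log (2 b / (b - 1))` for `1 < b ≤ 3` and
`s b = log ((b + 1) / 2) / log b` for `b ≥ 3`.

So the dimension of `E ∩ (1, 2]` is at most `1/2`, the dimension of `E ∩ (1, 3]` is at most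
`log 2 / log 3`, and the dimension of `E ∩ (1, b]` tends to `0` as `b → 1`. It was only clear that `E`
has Lebesgue measure zero (Koksma's theorem on `α ^ n / 2`). The proof uses only that the primes greater
than `2` are odd (`Pool.Agent.HX6.PF.dim_EO_le`, `dim_EO_le'`), and a general criterion for any set `S`
of natural numbers instead of the primes, in terms of the least length of an interval which contains
`k` elements of `S`, is `Pool.Agent.HX6.PF.dim_gen`.

Proof. Let `I` be an interval of numbers `α` with the same integer part of `α ^ n`. On `I` the function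
`α ^ (n + 1)` is almost linear, its image has length at most about `b`, and it meets `k` unit
intervals `[q, q + 1)` with `q` odd; the gaps between them have the total length at least
`k - 1`. So the lengths `w 1, ..., w k` of the parts of `I` which survive satisfy
`∑ w i ≤ |I| (1 - (k - 1) / B)`, `B = min b (2 k - 1)`, up to a factor which tends to one, and
`∑ (w i) ^ s ≤ k ^ (1 - s) (∑ w i) ^ s ≤ |I| ^ s` if `s > s b`. Hence the sums of the `s`-th powers of the
lengths of the surviving intervals stay bounded while the lengths tend to zero.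
-/

set_option autoImplicit false

open Pool.Agent.HX6.PF

namespace Pool.Agent.Results.MP_6db725_nt.HausdorffDimension

/-- the bound: `log 2 / log (2 b / (b - 1))` for `b ≤ 3`, and `log ((b + 1) / 2) / log b` for `b > 3` -/
noncomputable def s (b : ℝ) : ℝ :=
  if b ≤ 3 then Real.log 2 / Real.log (2 * b / (b - 1)) else Real.log ((b + 1) / 2) / Real.log b

theorem prime_sub (b : ℝ) :
    {α : ℝ | 1 < α ∧ α ≤ b ∧ ∃ N : ℕ, ∀ n : ℕ, N ≤ n → Nat.Prime ⌊α ^ n⌋₊} ⊆ EO b := by
  rintro α ⟨h1, h2, N, hN⟩
  obtain ⟨M, hM⟩ := Filter.eventually_atTop.1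
    ((tendsto_pow_atTop_atTop_of_one_lt h1).eventually_ge_atTop (3 : ℝ))
  refine ⟨h1, h2, max N M, fun n hn => ?_⟩
  have hp := hN n ((le_max_left _ _).trans hn)
  have h3 : 3 ≤ ⌊α ^ n⌋₊ := Nat.le_floor (by exact_mod_cast hM n ((le_max_right _ _).trans hn))
  rcases hp.eq_two_or_odd' with h | h
  · omega
  · exact h

/-- **The local Hausdorff dimension of the set of numbers with eventually prime power floors.** -/
theorem result (b : ℝ) (hb : 1 < b) :
    dimH {α : ℝ | 1 < α ∧ α ≤ b ∧ ∃ N : ℕ, ∀ n : ℕ, N ≤ n → Nat.Prime ⌊α ^ n⌋₊} ≤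
      ENNReal.ofReal (s b) ∧ s b < 1 := by
  unfold s
  split_ifs with h
  · exact ⟨(dimH_mono (prime_sub b)).trans (dim_EO_le hb), (sb_pos hb).2⟩
  · have h3 : 3 ≤ b := (not_le.1 h).le
    refine ⟨(dimH_mono (prime_sub b)).trans (dim_EO_le' h3), ?_⟩
    rw [div_lt_one (Real.log_pos (by linarith))]
    exact Real.log_lt_log (by linarith) (by linarith)

end Pool.Agent.Results.MP_6db725_nt.HausdorffDimension
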